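import Pool.Agent.J4.H71.TM.Main

/-!
# The size of the global curve attractor of a rational Thurston map is bounded

Full affirmative answer to Q1 of MP_5e4b6b_an. There is a function `B` such that the minimal finite
global attractor of the pullback relation on curves of a rational Thurston map `F`, when a finite
global attractor exists, has at most `B |P_F| (deg F)` elements.  Maps equivalent to a Lattes map
need not be excluded, and Thurston rigidity is not used.

The proof.  After a Moebius conjugation the rational maps of degree `d` whose critical values and
marked points lie in a forward invariant set of `n` marked points, one of them `∞`, are
parametrised by a semialgebraic set, which has finitely many connected components (the library of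
`Helper334_SA`).  The pullback relation is, up to isomorphism, locally constant on this set: every
isotopy class of curves has representatives in a compact set `K` away from the marked points, the
marked points are moved by homeomorphisms of the plane, and the components of the preimages of a
curve in `K` move by isotopies with the coefficients (the roots of the polynomials `A - y B` form a
covering of the space of the polynomials of degree `d` with simple roots, and homotopies are lifted
to it).  Isotopies preserve essential curves (Jordan curve theorem, by the theory of continuous
logarithms of `Helper188_Cone`).  A Thurston equivalence induces an isomorphism of the pullback
relations.  So for given `n` and `d` only finitely many pullback relations occur up to isomorphism.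
-/

set_option autoImplicit false

namespace Pool.Agent.Results.MP_5e4b6b_an.AttractorSizeBound

open Pool.Agent.J4.H71.TM

/-- There is a function `B` such that for every rational Thurston map `F` of degree `d` whose
pullback relation has a finite global attractor, there is a least finite global attractor, and it
has at most `B |P_F| d` elements. -/
theorem result : ∃ B : ℕ → ℕ → ℕ, ∀ (d : ℕ) (F : Sph → Sph), IsRationalThurston d F →
    (∃ A, IsAttractor (Pullback F (postcrit F)) A) →
    ∃ A, IsAttractor (Pullback F (postcrit F)) A ∧
      (∀ A', IsAttractor (Pullback F (postcrit F)) A' → A ⊆ A') ∧
      A.ncard ≤ B (postcrit F).ncard d := main

end Pool.Agent.Results.MP_5e4b6b_an.AttractorSizeBound
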